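import Pool.Agent.H477R3.K5.Draw

set_option autoImplicit false

/-!
# Data of a doubly periodic geometric graph with 32 edge classes on 5 vertex classes
-/

namespace Pool.Agent.H477R3.Gap

open Pool.Agent.H477R3.K5 (crossZ sideZ boxZ)

/-- positions of the five vertex classes in the cell `[0,60)²` -/
def posTable : List (ℤ × ℤ) :=
  [(15, 11), (45, 41), (11, 9), (43, 6), (13, 27)]

/-- position of vertex class `v` -/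
def P (v : Fin 5) : ℤ × ℤ := posTable.getD v.1 (0, 0)

/-- an edge class -/
abbrev Cls := Fin 5 × Fin 5 × ℤ × ℤ

/-- the 32 edge classes -/
def E : List Cls :=
  [(0, 0, 1, 0), (0, 1, -1, 0), (0, 1, 0, 0), (0, 1, 1, 0), (0, 2, -1, 0), (0, 2, 0, 0),
   (0, 2, 1, 0), (0, 3, -1, 0), (0, 3, 0, 0), (0, 3, 1, 0), (0, 4, -1, 0), (0, 4, 0, 0),
   (0, 4, 1, 0), (1, 1, 1, 0), (1, 2, 0, 1), (1, 2, 1, 1), (1, 3, -1, 1), (1, 3, 0, 1),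
   (1, 3, 1, 1), (1, 4, -1, 0), (1, 4, 0, 0), (1, 4, 1, 0), (2, 2, 1, 0), (2, 3, -1, 0),
   (2, 3, 0, 0), (2, 3, 1, 0), (2, 4, 0, 0), (2, 4, 1, 0), (3, 3, 1, 0), (3, 4, 0, -1),
   (3, 4, 1, -1), (4, 4, 1, 0)]

/-- weak separation of the boxes in one coordinate -/
def weakZ (a b c d : ℤ) : Bool :=
  decide (a ≠ b) && ((decide (a ≤ c) && decide (a ≤ d) && decide (b ≤ c) && decide (b ≤ d)) ||
    (decide (c ≤ a) && decide (c ≤ b) && decide (d ≤ a) && decide (d ≤ b)))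

/-- certified disjointness of the open segments `ab`, `cd` -/
def apart (a b c d : ℤ × ℤ) : Bool :=
  boxZ a b c d || sideZ a b c d || sideZ c d a b || weakZ a.1 b.1 c.1 d.1 ||
    weakZ a.2 b.2 c.2 d.2

/-- first end of edge class `c` in cell `(i,j)` -/
def s1 (c : Cls) (i j : ℤ) : ℤ × ℤ := ((P c.1).1 + 60 * i, (P c.1).2 + 60 * j)

/-- second end of edge class `c` in cell `(i,j)` -/
def s2 (c : Cls) (i j : ℤ) : ℤ × ℤ :=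
  ((P c.2.1).1 + 60 * (i + c.2.2.1), (P c.2.1).2 + 60 * (j + c.2.2.2))

/-- the relative cells to be checked -/
def cells : List (ℤ × ℤ) := ([-2, -1, 0, 1, 2] : List ℤ).product [-2, -1, 0, 1, 2]

/-- all relevant translates of edge classes -/
def cand : List (Cls × ℤ × ℤ) := E.product cells

/-- the translates whose open segments are not certified to be disjoint from that of `c` -/
def crossList (c : Cls) : List (Cls × ℤ × ℤ) :=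
  cand.filter fun q => (!decide (q = (c, 0, 0))) &&
    !apart (s1 c 0 0) (s2 c 0 0) (s1 q.1 q.2.1 q.2.2) (s2 q.1 q.2.1 q.2.2)

/-- denominator of the parameter of the crossing point of `c` with `q` -/
def den (c : Cls) (q : Cls × ℤ × ℤ) : ℤ :=
  ((s2 c 0 0).1 - (s1 c 0 0).1) * ((s2 q.1 q.2.1 q.2.2).2 - (s1 q.1 q.2.1 q.2.2).2) -
    ((s2 c 0 0).2 - (s1 c 0 0).2) * ((s2 q.1 q.2.1 q.2.2).1 - (s1 q.1 q.2.1 q.2.2).1)

/-- numerator of the parameter of the crossing point of `c` with `q` -/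
def num (c : Cls) (q : Cls × ℤ × ℤ) : ℤ :=
  ((s1 q.1 q.2.1 q.2.2).1 - (s1 c 0 0).1) * ((s2 q.1 q.2.1 q.2.2).2 - (s1 q.1 q.2.1 q.2.2).2) -
    ((s1 q.1 q.2.1 q.2.2).2 - (s1 c 0 0).2) * ((s2 q.1 q.2.1 q.2.2).1 - (s1 q.1 q.2.1 q.2.2).1)

/-- the tunnels: `(c, d, k, l)` says that `c` in cell `(0,0)` is the tunnel at its crossing with
`d` in cell `(k,l)` -/
def tun : List (Cls × Cls × ℤ × ℤ) :=
  [((0, 0, 1, 0), (2, 4, 0, 0), 1, 0), ((0, 0, 1, 0), (2, 4, 1, 0), 0, 0),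
   ((0, 1, -1, 0), (1, 4, -1, 0), 0, 0), ((0, 1, -1, 0), (4, 4, 1, 0), -1, 0),
   ((0, 1, 0, 0), (0, 4, -1, 0), 1, 0), ((0, 1, 0, 0), (1, 4, -1, 0), 1, 0),
   ((0, 1, 1, 0), (0, 1, -1, 0), 1, 0), ((0, 1, 1, 0), (0, 4, -1, 0), 1, 0),
   ((0, 2, -1, 0), (0, 2, 1, 0), -1, 0), ((0, 2, -1, 0), (2, 4, 0, 0), 0, 0),
   ((0, 2, 1, 0), (0, 3, -1, 0), 1, 0), ((0, 2, 1, 0), (2, 4, 1, 0), 0, 0),
   ((0, 3, -1, 0), (2, 2, 1, 0), -1, 0), ((0, 3, -1, 0), (2, 3, 1, 0), -1, 0),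
   ((0, 3, 0, 0), (0, 2, -1, 0), 1, 0), ((0, 3, 0, 0), (2, 4, 1, 0), 0, 0),
   ((0, 3, 1, 0), (0, 2, -1, 0), 1, 0), ((0, 3, 1, 0), (0, 3, -1, 0), 1, 0),
   ((0, 4, -1, 0), (2, 4, 0, 0), 0, 0), ((0, 4, -1, 0), (2, 4, 1, 0), -1, 0),
   ((0, 4, 1, 0), (0, 1, -1, 0), 1, 0), ((0, 4, 1, 0), (0, 4, -1, 0), 1, 0),
   ((1, 1, 1, 0), (3, 4, 0, -1), 1, 1), ((1, 1, 1, 0), (3, 4, 1, -1), 0, 1),
   ((1, 2, 0, 1), (0, 3, 1, 0), -1, 1), ((1, 2, 0, 1), (2, 3, 1, 0), -1, 1),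
   ((1, 2, 1, 1), (0, 3, 1, 0), 0, 1), ((1, 2, 1, 1), (1, 3, -1, 1), 1, 0),
   ((1, 3, -1, 1), (1, 3, 1, 1), -1, 0), ((1, 3, -1, 1), (3, 4, 0, -1), 0, 1),
   ((1, 3, 1, 1), (1, 2, 0, 1), 1, 0), ((1, 3, 1, 1), (3, 4, 1, -1), 0, 1),
   ((1, 4, -1, 0), (3, 4, 0, -1), 0, 1), ((1, 4, -1, 0), (3, 4, 1, -1), -1, 1),
   ((1, 4, 1, 0), (0, 1, 1, 0), 0, 0), ((1, 4, 1, 0), (1, 4, -1, 0), 1, 0),
   ((2, 2, 1, 0), (0, 3, 0, 0), 0, 0), ((2, 2, 1, 0), (0, 3, 1, 0), 0, 0),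
   ((2, 3, -1, 0), (0, 3, 1, 0), -1, 0), ((2, 3, -1, 0), (2, 3, 1, 0), -1, 0),
   ((2, 3, 1, 0), (0, 3, 0, 0), 0, 0), ((2, 3, 1, 0), (1, 2, 1, 1), 0, -1),
   ((2, 4, 0, 0), (0, 1, -1, 0), 0, 0), ((2, 4, 0, 0), (0, 3, -1, 0), 0, 0),
   ((2, 4, 1, 0), (0, 1, -1, 0), 1, 0), ((2, 4, 1, 0), (0, 3, 1, 0), 0, 0),
   ((3, 3, 1, 0), (1, 2, 0, 1), 1, -1), ((3, 3, 1, 0), (1, 2, 1, 1), 0, -1),
   ((3, 4, 0, -1), (0, 1, 1, 0), -1, -1), ((3, 4, 0, -1), (1, 2, 0, 1), 0, -1),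
   ((3, 4, 1, -1), (0, 1, 1, 0), 0, -1), ((3, 4, 1, -1), (1, 2, 1, 1), 0, -1),
   ((4, 4, 1, 0), (0, 1, 0, 0), 0, 0), ((4, 4, 1, 0), (0, 1, 1, 0), 0, 0)]

/-- all checks for one edge class -/
def chk (c : Cls) (L : List (Cls × ℤ × ℤ)) : Bool :=
  L.all fun q => decide (den c q ≠ 0) &&
    (decide ((c, q.1, q.2.1, q.2.2) ∈ tun) != decide ((q.1, c, -q.2.1, -q.2.2) ∈ tun)) &&
    decide (s1 c 0 0 ≠ s1 q.1 q.2.1 q.2.2) && decide (s1 c 0 0 ≠ s2 q.1 q.2.1 q.2.2) &&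
    decide (s2 c 0 0 ≠ s1 q.1 q.2.1 q.2.2) && decide (s2 c 0 0 ≠ s2 q.1 q.2.1 q.2.2) &&
    L.all fun r => decide (q = r) || decide (num c q * den c r ≠ num c r * den c q)

theorem check_all : (E.all fun c => chk c (crossList c)) = true := by
  decide +kernel

theorem check_gap : ∀ c ∈ E, (tun.filter fun t => decide (t.1 = c)).length ≤ 2 := by
  decide +kernel

theorem check_rev : ∀ c ∈ E, ∀ d ∈ E, ¬ (d.1 = c.2.1 ∧ d.2.1 = c.1 ∧ d.2.2.1 = -c.2.2.1 ∧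
    d.2.2.2 = -c.2.2.2) := by
  decide +kernel

theorem check_bd : ∀ c ∈ E, (-1 ≤ c.2.2.1 ∧ c.2.2.1 ≤ 1) ∧ (-1 ≤ c.2.2.2 ∧ c.2.2.2 ≤ 1) := by
  decide +kernel

theorem P_bd : ∀ v : Fin 5, (0 ≤ (P v).1 ∧ (P v).1 < 60) ∧ (0 ≤ (P v).2 ∧ (P v).2 < 60) := by
  decide +kernel

theorem P_inj : ∀ v w : Fin 5, P v = P w → v = w := by
  decide +kernel

theorem E_nodup : E.Nodup := by decide +kernel

theorem E_length : E.length = 32 := rfl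

/-- position of vertex class `v` in cell `(i,j)` -/
def vp (v : Fin 5) (i j : ℤ) : ℤ × ℤ := ((P v).1 + 60 * i, (P v).2 + 60 * j)

theorem check_avoid : ∀ c ∈ E, ∀ v : Fin 5, ∀ q ∈ cells,
    K5.avoidZ (s1 c 0 0) (s2 c 0 0) (vp v q.1 q.2) = true := by
  decide +kernel

end Pool.Agent.H477R3.Gap
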