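import Pool.Agent.H477R3.Gap.Data

set_option autoImplicit false

namespace Pool.Agent.H477R3.Gap

open Pool.Agent.H477R3.K5 (crossZ sideZ boxZ toR mem_os side_sound box_sound avoidZ avoid_sound
  Drawing cross_shift)

theorem weak_real {a b c d : ℤ} (h : weakZ a b c d = true) {t u : ℝ} (ht0 : 0 < t) (ht1 : t < 1)
    (hu0 : 0 < u) (hu1 : u < 1) (he : (1 - t) * (a : ℝ) + t * b = (1 - u) * c + u * d) : False := by
  simp only [weakZ, Bool.or_eq_true, Bool.and_eq_true, decide_eq_true_eq] at h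
  obtain ⟨hab, h⟩ := h
  have hab' : (a : ℝ) ≠ b := by exact_mod_cast hab
  have h1 : 0 < 1 - t := by linarith
  have h2 : 0 < 1 - u := by linarith
  rcases h with ⟨⟨⟨p, q⟩, r⟩, s⟩ | ⟨⟨⟨p, q⟩, r⟩, s⟩
  · have p' : (a : ℝ) ≤ c := by exact_mod_cast p
    have q' : (a : ℝ) ≤ d := by exact_mod_cast q
    have r' : (b : ℝ) ≤ c := by exact_mod_cast r
    have s' : (b : ℝ) ≤ d := by exact_mod_cast s
    have e1 : max (a : ℝ) b ≤ (1 - u) * c + u * d := by
      rw [max_le_iff]
      constructor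
      · nlinarith [mul_nonneg h2.le (sub_nonneg.mpr p'), mul_nonneg hu0.le (sub_nonneg.mpr q')]
      · nlinarith [mul_nonneg h2.le (sub_nonneg.mpr r'), mul_nonneg hu0.le (sub_nonneg.mpr s')]
    have e2 : (1 - t) * (a : ℝ) + t * b < max (a : ℝ) b := by
      rcases lt_or_gt_of_ne hab' with h | h
      · rw [max_eq_right h.le]
        nlinarith [mul_pos h1 (sub_pos.mpr h)]
      · rw [max_eq_left h.le]
        nlinarith [mul_pos ht0 (sub_pos.mpr h)]
    linarith
  · have p' : (c : ℝ) ≤ a := by exact_mod_cast p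
    have q' : (c : ℝ) ≤ b := by exact_mod_cast q
    have r' : (d : ℝ) ≤ a := by exact_mod_cast r
    have s' : (d : ℝ) ≤ b := by exact_mod_cast s
    have e1 : (1 - u) * (c : ℝ) + u * d ≤ min (a : ℝ) b := by
      rw [le_min_iff]
      constructor
      · nlinarith [mul_nonneg h2.le (sub_nonneg.mpr p'), mul_nonneg hu0.le (sub_nonneg.mpr r')]
      · nlinarith [mul_nonneg h2.le (sub_nonneg.mpr q'), mul_nonneg hu0.le (sub_nonneg.mpr s')]
    have e2 : min (a : ℝ) b < (1 - t) * (a : ℝ) + t * b := by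
      rcases lt_or_gt_of_ne hab' with h | h
      · rw [min_eq_left h.le]
        nlinarith [mul_pos ht0 (sub_pos.mpr h)]
      · rw [min_eq_right h.le]
        nlinarith [mul_pos h1 (sub_pos.mpr h)]
    linarith

theorem apart_sound {a b c d : ℤ × ℤ} (h : apart a b c d = true) {x : ℝ × ℝ}
    (hx : x ∈ openSegment ℝ (toR a) (toR b)) (hy : x ∈ openSegment ℝ (toR c) (toR d)) : False := by
  simp only [apart, Bool.or_eq_true] at h
  rcases h with (((h | h) | h) | h) | h
  · exact box_sound h hx hy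
  · exact side_sound h hx hy
  · exact side_sound h hy hx
  · obtain ⟨t, ht0, ht1, h1, h2⟩ := mem_os hx
    obtain ⟨u, hu0, hu1, h3, h4⟩ := mem_os hy
    exact weak_real h ht0 ht1 hu0 hu1 (by rw [← h1, ← h3])
  · obtain ⟨t, ht0, ht1, h1, h2⟩ := mem_os hx
    obtain ⟨u, hu0, hu1, h3, h4⟩ := mem_os hy
    exact weak_real h ht0 ht1 hu0 hu1 (by rw [← h2, ← h4])

/-- vertices of the infinite periodic graph -/
abbrev Vt := ℤ × ℤ × Fin 5

/-- position of a vertex -/
def pt (u : Vt) : ℤ × ℤ := vp u.2.2 u.1 u.2.1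

/-- first end of the edge of class `c` in cell `(i,j)` -/
def src (c : Cls) (i j : ℤ) : Vt := (i, j, c.1)

/-- second end of the edge of class `c` in cell `(i,j)` -/
def tgt (c : Cls) (i j : ℤ) : Vt := (i + c.2.2.1, j + c.2.2.2, c.2.1)

theorem pt_src (c : Cls) (i j : ℤ) : pt (src c i j) = s1 c i j := rfl

theorem pt_tgt (c : Cls) (i j : ℤ) : pt (tgt c i j) = s2 c i j := rfl

theorem pt_inj : Function.Injective pt := by
  rintro ⟨i, j, v⟩ ⟨i', j', v'⟩ h
  simp only [pt, vp, Prod.mk.injEq] at h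
  obtain ⟨h1, h2⟩ := h
  have b1 := P_bd v
  have b2 := P_bd v'
  have e1 : i = i' := by omega
  have e2 : j = j' := by omega
  subst e1 e2
  have : P v = P v' := by
    ext
    · omega
    · omega
  rw [P_inj v v' this]

theorem src_tgt_ne {c d : Cls} (hc : c ∈ E) (hd : d ∈ E) {i j i' j' : ℤ}
    (h1 : src c i j = tgt d i' j') (h2 : tgt c i j = src d i' j') : False := by
  simp only [src, tgt, Prod.mk.injEq] at h1 h2
  refine check_rev c hc d hd ⟨h2.2.2.symm, h1.2.2.symm, ?_, ?_⟩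
  · omega
  · omega

theorem cls_eq {c d : Cls} {i j i' j' : ℤ}
    (h1 : src c i j = src d i' j') (h2 : tgt c i j = tgt d i' j') : c = d ∧ i = i' ∧ j = j' := by
  simp only [src, tgt, Prod.mk.injEq] at h1 h2
  obtain ⟨a1, a2, a3⟩ := h1
  obtain ⟨b1, b2, b3⟩ := h2
  refine ⟨?_, a1, a2⟩
  obtain ⟨c1, c2, c3, c4⟩ := c
  obtain ⟨d1, d2, d3, d4⟩ := d
  simp only at a3 b1 b2 b3
  subst a1 a2 a3 b3
  have : c3 = d3 := by omega
  have h' : c4 = d4 := by omega
  rw [this, h']

/-- the infinite periodic graph -/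
def bigG : SimpleGraph Vt where
  Adj u w := ∃ c ∈ E, ∃ i j : ℤ, (u = src c i j ∧ w = tgt c i j) ∨ (w = src c i j ∧ u = tgt c i j)
  symm := ⟨by
    rintro u w ⟨c, hc, i, j, h⟩
    exact ⟨c, hc, i, j, h.symm⟩⟩
  loopless := ⟨by
    rintro u ⟨c, hc, i, j, h⟩
    have : src c i j = tgt c i j := by
      rcases h with ⟨h1, h2⟩ | ⟨h1, h2⟩
      · rw [← h1, ← h2]
      · rw [← h1, ← h2]
    exact src_tgt_ne hc hc this this.symm⟩

theorem apart_shift (a b c d : ℤ × ℤ) (x y : ℤ) :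
    apart (a.1 + x, a.2 + y) (b.1 + x, b.2 + y) (c.1 + x, c.2 + y) (d.1 + x, d.2 + y)
      = apart a b c d := by
  simp only [apart, boxZ, sideZ, weakZ, cross_shift, add_lt_add_iff_right, add_le_add_iff_right,
    ne_eq, add_left_inj]

theorem s1_shift (c : Cls) (i j k l : ℤ) :
    s1 c (i + k) (j + l) = ((s1 c k l).1 + 60 * i, (s1 c k l).2 + 60 * j) := by
  simp only [s1, Prod.mk.injEq]
  constructor <;> ring

theorem s2_shift (c : Cls) (i j k l : ℤ) :
    s2 c (i + k) (j + l) = ((s2 c k l).1 + 60 * i, (s2 c k l).2 + 60 * j) := by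
  simp only [s2, Prod.mk.injEq]
  constructor <;> ring

theorem mem_cells {k l : ℤ} (h1 : -2 ≤ k) (h2 : k ≤ 2) (h3 : -2 ≤ l) (h4 : l ≤ 2) :
    (k, l) ∈ cells := by
  have : ∀ m : ℤ, -2 ≤ m → m ≤ 2 → m ∈ ([-2, -1, 0, 1, 2] : List ℤ) := by
    intro m hm hm'
    interval_cases m <;> simp
  rw [cells, List.pair_mem_product]
  exact ⟨this k h1 h2, this l h3 h4⟩

/-- far translates are separated -/
theorem far {c d : Cls} (hc : c ∈ E) (hd : d ∈ E) {k l : ℤ}
    (h : ¬ (-2 ≤ k ∧ k ≤ 2 ∧ -2 ≤ l ∧ l ≤ 2)) :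
    apart (s1 c 0 0) (s2 c 0 0) (s1 d k l) (s2 d k l) = true := by
  have b1 := P_bd c.1
  have b2 := P_bd c.2.1
  have b3 := P_bd d.1
  have b4 := P_bd d.2.1
  have c1 := check_bd c hc
  have d1 := check_bd d hd
  have : boxZ (s1 c 0 0) (s2 c 0 0) (s1 d k l) (s2 d k l) = true := by
    simp only [boxZ, s1, s2, Bool.or_eq_true, Bool.and_eq_true, decide_eq_true_eq]
    by_cases h1 : 2 < k
    · left; left; left
      refine ⟨⟨⟨?_, ?_⟩, ?_⟩, ?_⟩ <;> omega
    · by_cases h2 : k < -2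
      · left; left; right
        refine ⟨⟨⟨?_, ?_⟩, ?_⟩, ?_⟩ <;> omega
      · by_cases h3 : 2 < l
        · left; right
          refine ⟨⟨⟨?_, ?_⟩, ?_⟩, ?_⟩ <;> omega
        · right
          refine ⟨⟨⟨?_, ?_⟩, ?_⟩, ?_⟩ <;> omega
  simp only [apart, this, Bool.true_or]

/-- two edges either have disjoint open segments or form one of the listed crossings -/
theorem listed {c d : Cls} (hc : c ∈ E) (hd : d ∈ E) {i j k l : ℤ}
    (hne : ¬ (d = c ∧ k = 0 ∧ l = 0)) {x : ℝ × ℝ}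
    (hx : x ∈ openSegment ℝ (toR (s1 c i j)) (toR (s2 c i j)))
    (hy : x ∈ openSegment ℝ (toR (s1 d (i + k) (j + l))) (toR (s2 d (i + k) (j + l)))) :
    (d, k, l) ∈ crossList c := by
  by_contra hcon
  have hap : apart (s1 c 0 0) (s2 c 0 0) (s1 d k l) (s2 d k l) = true := by
    by_cases hr : -2 ≤ k ∧ k ≤ 2 ∧ -2 ≤ l ∧ l ≤ 2
    · have hm : (d, k, l) ∈ cand := by
        rw [cand]
        exact List.pair_mem_product.mpr ⟨hd, mem_cells hr.1 hr.2.1 hr.2.2.1 hr.2.2.2⟩
      by_contra hap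
      apply hcon
      rw [crossList, List.mem_filter]
      refine ⟨hm, ?_⟩
      have e1 : decide ((d, k, l) = (c, (0 : ℤ), (0 : ℤ))) = false := by
        rw [decide_eq_false_iff_not]
        intro h
        simp only [Prod.mk.injEq] at h
        exact hne ⟨by
          obtain ⟨d1, d2, d3, d4⟩ := d
          obtain ⟨c1, c2, c3, c4⟩ := c
          simp only [Prod.mk.injEq] at h ⊢
          exact h.1, h.2.1, h.2.2⟩
      have e2 : apart (s1 c 0 0) (s2 c 0 0) (s1 d k l) (s2 d k l) = false := by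
        simpa using hap
      simp only [e1, e2, Bool.not_false, Bool.and_self]
    · exact far hc hd hr
  refine apart_sound (a := s1 c i j) (b := s2 c i j) (c := s1 d (i + k) (j + l))
    (d := s2 d (i + k) (j + l)) ?_ hx hy
  have g1 : s1 c i j = ((s1 c 0 0).1 + 60 * i, (s1 c 0 0).2 + 60 * j) := by
    have := s1_shift c i j 0 0
    simpa using this
  have g2 : s2 c i j = ((s2 c 0 0).1 + 60 * i, (s2 c 0 0).2 + 60 * j) := by
    have := s2_shift c i j 0 0
    simpa using this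
  rw [g1, g2, s1_shift, s2_shift, apart_shift]
  exact hap

/-- vertices avoid the open segments of the edges -/
theorem avoid {c : Cls} (hc : c ∈ E) {i j : ℤ} (u : Vt)
    (hx : toR (pt u) ∈ openSegment ℝ (toR (s1 c i j)) (toR (s2 c i j))) : False := by
  obtain ⟨i', j', v⟩ := u
  have b1 := P_bd c.1
  have b2 := P_bd c.2.1
  have b3 := P_bd v
  have c1 := check_bd c hc
  by_cases hr : -2 ≤ i' - i ∧ i' - i ≤ 2 ∧ -2 ≤ j' - j ∧ j' - j ≤ 2
  · have h := check_avoid c hc v (i' - i, j' - j) (mem_cells hr.1 hr.2.1 hr.2.2.1 hr.2.2.2)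
    refine avoid_sound (a := s1 c i j) (b := s2 c i j) (p := pt (i', j', v)) ?_ hx
    simp only [avoidZ, Bool.or_eq_true, Bool.and_eq_true, decide_eq_true_eq] at h ⊢
    simp only [crossZ, s1, s2, vp, pt] at h ⊢
    rcases h with (h | ⟨h, h'⟩) | ⟨h, h'⟩
    · left; left
      intro h0
      apply h
      linear_combination h0
    · left; right
      refine ⟨by omega, ?_⟩
      rcases h' with ⟨h1, h2⟩ | ⟨h1, h2⟩
      · left; constructor <;> omega
      · right; constructor <;> omega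
    · right
      refine ⟨by omega, ?_⟩
      rcases h' with ⟨h1, h2⟩ | ⟨h1, h2⟩
      · left; constructor <;> omega
      · right; constructor <;> omega
  · obtain ⟨t, ht0, ht1, h1, h2⟩ := mem_os hx
    simp only [toR, pt, vp, s1, s2] at h1 h2
    have key : ∀ a b p : ℤ, (p : ℝ) = (1 - t) * a + t * b → ¬ (p < a ∧ p < b) ∧ ¬ (a < p ∧ b < p) := by
      intro a b p h
      have ht : 0 < 1 - t := by linarith
      constructor
      · rintro ⟨q1, q2⟩
        have q1' : (p : ℝ) < a := by exact_mod_cast q1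
        have q2' : (p : ℝ) < b := by exact_mod_cast q2
        nlinarith [mul_pos ht (sub_pos.mpr q1'), mul_pos ht0 (sub_pos.mpr q2')]
      · rintro ⟨q1, q2⟩
        have q1' : (a : ℝ) < p := by exact_mod_cast q1
        have q2' : (b : ℝ) < p := by exact_mod_cast q2
        nlinarith [mul_pos ht (sub_pos.mpr q1'), mul_pos ht0 (sub_pos.mpr q2')]
    have k1 := key _ _ _ h1
    have k2 := key _ _ _ h2
    by_cases g1 : 2 < i' - i
    · exact k1.2 (by constructor <;> omega)
    · by_cases g2 : i' - i < -2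
      · exact k1.1 (by constructor <;> omega)
      · by_cases g3 : 2 < j' - j
        · exact k2.2 (by constructor <;> omega)
        · exact k2.1 (by constructor <;> omega)

/-- the parameter of the crossing point -/
theorem param {c : Cls} {q : Cls × ℤ × ℤ} {i j : ℤ} {t : ℝ} {x : ℝ × ℝ}
    (h1 : x.1 = (1 - t) * (s1 c i j).1 + t * (s2 c i j).1)
    (h2 : x.2 = (1 - t) * (s1 c i j).2 + t * (s2 c i j).2)
    (hy : x ∈ openSegment ℝ (toR (s1 q.1 (i + q.2.1) (j + q.2.2)))
      (toR (s2 q.1 (i + q.2.1) (j + q.2.2)))) :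
    t * (den c q : ℝ) = num c q := by
  obtain ⟨u, -, -, h3, h4⟩ := mem_os hy
  rw [h1] at h3
  rw [h2] at h4
  simp only [s1, s2] at h3 h4
  push_cast at h3 h4
  simp only [den, num, s1, s2]
  push_cast
  linear_combination
    ((((P q.1.2.1).2 : ℝ) + 60 * (q.2.2 + q.1.2.2.2)) - ((P q.1.1).2 + 60 * q.2.2)) * h3
    - ((((P q.1.2.1).1 : ℝ) + 60 * (q.2.1 + q.1.2.2.1)) - ((P q.1.1).1 + 60 * q.2.1)) * h4

end Pool.Agent.H477R3.Gap
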