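import Pool.Agent.H477R3.Gap.Draw
import Pool.Agent.H477R3.K5.Main

set_option autoImplicit false

namespace Pool.Agent.H477R3.Gap

open Pool.Agent.H477R3.K5 (toR toR_inj Drawing cross_unique)

/-- All edges are drawn as straight segments. -/
def Straight {V : Type} {G : SimpleGraph V} (D : Drawing G) : Prop :=
  ∀ e, ∀ t ∈ Set.Icc (0 : ℝ) 1, D.arc e t = (1 - t) • D.arc e 0 + t • D.arc e 1

/-- Two edges share at most one interior point, edges with a common endpoint share none, and no
three edges share an interior point. -/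
def Regular {V : Type} {G : SimpleGraph V} (D : Drawing G) : Prop :=
  (∀ e f, e ≠ f → (D.inner e ∩ D.inner f).Subsingleton) ∧
  (∀ e f : G.edgeSet, e ≠ f → (∃ v, v ∈ e.1 ∧ v ∈ f.1) → D.inner e ∩ D.inner f = ∅) ∧
  (∀ e f g, e ≠ f → f ≠ g → e ≠ g → D.inner e ∩ D.inner f ∩ D.inner g = ∅)

/-- `G` has a straight-line `k`-gap planar drawing: `tun e f` says that the edge `e` is the tunnel
at the crossing of `e` and `f`; at every crossing exactly one of the two edges is the tunnel, and
every edge is the tunnel at no more than `k` crossings. -/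
def StraightGapPlanar (k : ℕ) {V : Type} (G : SimpleGraph V) : Prop :=
  ∃ D : Drawing G, Straight D ∧ Regular D ∧ ∃ tun : G.edgeSet → G.edgeSet → Prop,
    (∀ e f, e ≠ f → (D.inner e ∩ D.inner f).Nonempty → (tun e f ↔ ¬ tun f e)) ∧
    ∀ e, {f | f ≠ e ∧ (D.inner e ∩ D.inner f).Nonempty ∧ tun e f}.encard ≤ k

section

variable {V : Type} (φ : V ↪ Vt)

/-- the finite graph -/
def G (φ : V ↪ Vt) : SimpleGraph V := bigG.comap φ

/-- position in the plane -/
def rp (φ : V ↪ Vt) (v : V) : ℝ × ℝ := toR (pt (φ v))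

theorem rp_inj : Function.Injective (rp φ) := fun _ _ h => φ.injective (pt_inj (toR_inj h))

/-- the chosen order of the ends of an edge -/
noncomputable def ends (e : (G φ).edgeSet) : V × V := Quot.out e.1

theorem ends_eq (e : (G φ).edgeSet) : s((ends φ e).1, (ends φ e).2) = e.1 := by
  have : Quot.mk _ (Quot.out e.1) = e.1 := Quot.out_eq e.1
  exact this

theorem ends_adj (e : (G φ).edgeSet) : (G φ).Adj (ends φ e).1 (ends φ e).2 := by
  have h : s((ends φ e).1, (ends φ e).2) ∈ (G φ).edgeSet := by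
    rw [ends_eq]; exact e.2
  exact h

theorem ends_ne (e : (G φ).edgeSet) : (ends φ e).1 ≠ (ends φ e).2 := (ends_adj φ e).ne

/-- class and cell of an edge -/
theorem edge_data (e : (G φ).edgeSet) : ∃ c ∈ E, ∃ i j : ℤ,
    (φ (ends φ e).1 = src c i j ∧ φ (ends φ e).2 = tgt c i j) ∨
      (φ (ends φ e).2 = src c i j ∧ φ (ends φ e).1 = tgt c i j) := ends_adj φ e

/-- the drawing by straight segments -/
noncomputable def draw : Drawing (G φ) where
  pos := rp φ
  pos_inj := rp_inj φ
  arc e t := ((1 - t) * (rp φ (ends φ e).1).1 + t * (rp φ (ends φ e).2).1,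
    (1 - t) * (rp φ (ends φ e).1).2 + t * (rp φ (ends φ e).2).2)
  arc_cont e := by
    apply Continuous.continuousOn
    fun_prop
  arc_inj e := by
    intro t _ t' _ h
    simp only [Prod.mk.injEq] at h
    by_contra hne
    apply ends_ne φ e
    apply rp_inj φ
    have h1 : (t - t') * ((rp φ (ends φ e).1).1 - (rp φ (ends φ e).2).1) = 0 := by
      linear_combination -h.1
    have h2 : (t - t') * ((rp φ (ends φ e).1).2 - (rp φ (ends φ e).2).2) = 0 := by
      linear_combination -h.2
    have h3 : t - t' ≠ 0 := sub_ne_zero.mpr hne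
    ext
    · have := (mul_eq_zero.mp h1).resolve_left h3
      linarith
    · have := (mul_eq_zero.mp h2).resolve_left h3
      linarith
  arc_ends e := by
    have : Sym2.map (rp φ) e.1 = s(rp φ (ends φ e).1, rp φ (ends φ e).2) := by
      rw [← ends_eq φ e, Sym2.map_mk]
    rw [this]
    simp
  arc_avoid e v t ht h := by
    obtain ⟨c, hc, i, j, hd⟩ := edge_data φ e
    have hm : rp φ v ∈ openSegment ℝ (rp φ (ends φ e).1) (rp φ (ends φ e).2) := by
      refine ⟨1 - t, t, by linarith [ht.2], ht.1, by ring, ?_⟩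
      rw [← h]
      ext <;> simp
    rcases hd with ⟨h1, h2⟩ | ⟨h1, h2⟩
    · refine avoid hc (i := i) (j := j) (φ v) ?_
      have e1 : rp φ (ends φ e).1 = toR (s1 c i j) := by rw [rp, h1, pt_src]
      have e2 : rp φ (ends φ e).2 = toR (s2 c i j) := by rw [rp, h2, pt_tgt]
      rw [e1, e2] at hm
      exact hm
    · refine avoid hc (i := i) (j := j) (φ v) ?_
      have e1 : rp φ (ends φ e).2 = toR (s1 c i j) := by rw [rp, h1, pt_src]
      have e2 : rp φ (ends φ e).1 = toR (s2 c i j) := by rw [rp, h2, pt_tgt]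
      rw [e1, e2, openSegment_symm] at hm
      exact hm

theorem straight_draw : Straight (draw φ) := by
  intro e t _
  ext <;> simp [draw]

theorem inner_sub (e : (G φ).edgeSet) : (draw φ).inner e ⊆
    openSegment ℝ (rp φ (ends φ e).1) (rp φ (ends φ e).2) := by
  rintro x ⟨t, ht, rfl⟩
  refine ⟨1 - t, t, by linarith [ht.2], ht.1, by ring, ?_⟩
  ext <;> simp [draw]

/-- class and cell of an edge, with its segment -/
theorem edge_seg (e : (G φ).edgeSet) : ∃ c ∈ E, ∃ i j : ℤ,
    Sym2.map φ e.1 = s(src c i j, tgt c i j) ∧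
    (draw φ).inner e ⊆ openSegment ℝ (toR (s1 c i j)) (toR (s2 c i j)) := by
  obtain ⟨c, hc, i, j, hd⟩ := edge_data φ e
  refine ⟨c, hc, i, j, ?_, ?_⟩
  · rw [← ends_eq φ e, Sym2.map_mk]
    rcases hd with ⟨h1, h2⟩ | ⟨h1, h2⟩
    · rw [h1, h2]
    · rw [h1, h2]; exact Sym2.eq_swap
  · refine (inner_sub φ e).trans ?_
    rcases hd with ⟨h1, h2⟩ | ⟨h1, h2⟩
    · rw [rp, rp, h1, h2, pt_src, pt_tgt]
    · rw [rp, rp, h1, h2, pt_src, pt_tgt, openSegment_symm]

theorem chk_of {c : Cls} (hc : c ∈ E) : chk c (crossList c) = true :=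
  List.all_eq_true.mp check_all c hc

theorem chk_q {c : Cls} (hc : c ∈ E) {q : Cls × ℤ × ℤ} (hq : q ∈ crossList c) :
    den c q ≠ 0 ∧ ((c, q.1, q.2.1, q.2.2) ∈ tun ↔ ¬ (q.1, c, -q.2.1, -q.2.2) ∈ tun) ∧
    s1 c 0 0 ≠ s1 q.1 q.2.1 q.2.2 ∧ s1 c 0 0 ≠ s2 q.1 q.2.1 q.2.2 ∧
    s2 c 0 0 ≠ s1 q.1 q.2.1 q.2.2 ∧ s2 c 0 0 ≠ s2 q.1 q.2.1 q.2.2 ∧
    ∀ r ∈ crossList c, q = r ∨ num c q * den c r ≠ num c r * den c q := by
  have h := List.all_eq_true.mp (chk_of hc) q hq
  simp only [Bool.and_eq_true, decide_eq_true_eq, List.all_eq_true, Bool.or_eq_true,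
    bne_iff_ne] at h
  obtain ⟨⟨⟨⟨⟨⟨h1, h2⟩, h3⟩, h4⟩, h5⟩, h6⟩, h7⟩ := h
  refine ⟨h1, ?_, h3, h4, h5, h6, h7⟩
  by_cases ha : (c, q.1, q.2.1, q.2.2) ∈ tun
  · by_cases hb : (q.1, c, -q.2.1, -q.2.2) ∈ tun
    · exact absurd (by rw [decide_eq_true ha, decide_eq_true hb]) h2
    · exact ⟨fun _ => hb, fun _ => ha⟩
  · by_cases hb : (q.1, c, -q.2.1, -q.2.2) ∈ tun
    · exact ⟨fun h => absurd h ha, fun h => absurd hb h⟩
    · exact absurd (by rw [decide_eq_false ha, decide_eq_false hb]) h2

theorem gap : StraightGapPlanar 2 (G φ) := by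
  classical
  refine ⟨draw φ, straight_draw φ, ?_⟩
  choose g hg k l hkl hseg using edge_seg φ
  -- the relative position of `f` seen from `e`
  let F : (G φ).edgeSet → (G φ).edgeSet → Cls × ℤ × ℤ := fun e f => (g f, k f - k e, l f - l e)
  have hinjF : ∀ e f f', F e f = F e f' → f = f' := by
    intro e f f' hFF
    simp only [F, Prod.mk.injEq] at hFF
    have hgg : g f = g f' := by
      obtain ⟨h1, -⟩ := hFF
      revert h1
      rcases g f with ⟨a1, a2, a3, a4⟩
      rcases g f' with ⟨b1, b2, b3, b4⟩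
      intro h1
      simpa using h1
    have hk : k f = k f' := by
      have := hFF.2.1
      omega
    have hl : l f = l f' := by
      have := hFF.2.2
      omega
    apply Subtype.ext
    apply Sym2.map.injective φ.injective
    rw [hkl f, hkl f', hgg, hk, hl]
  have hlist : ∀ e f, e ≠ f → ∀ x, x ∈ (draw φ).inner e → x ∈ (draw φ).inner f →
      F e f ∈ crossList (g e) := by
    intro e f hne x hx1 hx2
    refine listed (c := g e) (d := g f) (hg e) (hg f) (i := k e) (j := l e) (k := k f - k e)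
      (l := l f - l e) ?_ (hseg e hx1) ?_
    · rintro ⟨h1, h2, h3⟩
      apply hne
      have e1 : k f = k e := by omega
      have e2 : l f = l e := by omega
      have : Sym2.map φ f.1 = Sym2.map φ e.1 := by
        rw [hkl f, hkl e, h1, e1, e2]
      exact (Subtype.ext (Sym2.map.injective φ.injective this)).symm
    · have e1 : k e + (k f - k e) = k f := by ring
      have e2 : l e + (l f - l e) = l f := by ring
      rw [e1, e2]
      exact hseg f hx2
  have hF1 : ∀ e f, k e + (F e f).2.1 = k f ∧ l e + (F e f).2.2 = l f := by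
    intro e f
    constructor
    · show k e + (k f - k e) = k f
      ring
    · show l e + (l f - l e) = l f
      ring
  have hpar : ∀ e f x (t : ℝ), x.1 = (1 - t) * (s1 (g e) (k e) (l e)).1 +
      t * (s2 (g e) (k e) (l e)).1 → x.2 = (1 - t) * (s1 (g e) (k e) (l e)).2 +
      t * (s2 (g e) (k e) (l e)).2 → x ∈ (draw φ).inner f →
      t * (den (g e) (F e f) : ℝ) = num (g e) (F e f) := by
    intro e f x t h1 h2 hf
    refine param h1 h2 ?_
    rw [(hF1 e f).1, (hF1 e f).2]
    exact hseg f hf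
  refine ⟨⟨?_, ?_, ?_⟩, ?_⟩
  · -- at most one common interior point
    intro e f hne x hx y hy
    have hq := chk_q (hg e) (hlist e f hne x hx.1 hx.2)
    obtain ⟨t, -, -, h1, h2⟩ := K5.mem_os (hseg e hx.1)
    obtain ⟨t', -, -, h3, h4⟩ := K5.mem_os (hseg e hy.1)
    have p1 := hpar e f x t h1 h2 hx.2
    have p2 := hpar e f y t' h3 h4 hy.2
    have hd : (den (g e) (F e f) : ℝ) ≠ 0 := by exact_mod_cast hq.1
    have : t = t' := by
      apply mul_right_cancel₀ hd
      rw [p1, p2]
    subst this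
    ext
    · rw [h1, h3]
    · rw [h2, h4]
  · -- adjacent edges
    rintro e f hne ⟨v, hv1, hv2⟩
    rw [Set.eq_empty_iff_forall_notMem]
    rintro x ⟨hx1, hx2⟩
    have hq := chk_q (hg e) (hlist e f hne x hx1 hx2)
    have m1 : φ v ∈ s(src (g e) (k e) (l e), tgt (g e) (k e) (l e)) := by
      rw [← hkl e, Sym2.mem_map]; exact ⟨v, hv1, rfl⟩
    have m2 : φ v ∈ s(src (g f) (k f) (l f), tgt (g f) (k f) (l f)) := by
      rw [← hkl f, Sym2.mem_map]; exact ⟨v, hv2, rfl⟩
    rw [Sym2.mem_iff] at m1 m2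
    have a1 : s1 (g e) (k e) (l e) = ((s1 (g e) 0 0).1 + 60 * k e, (s1 (g e) 0 0).2 + 60 * l e) := by
      have := s1_shift (g e) (k e) (l e) 0 0
      simpa using this
    have a2 : s2 (g e) (k e) (l e) = ((s2 (g e) 0 0).1 + 60 * k e, (s2 (g e) 0 0).2 + 60 * l e) := by
      have := s2_shift (g e) (k e) (l e) 0 0
      simpa using this
    have a3 : s1 (g f) (k f) (l f) = ((s1 (g f) (k f - k e) (l f - l e)).1 + 60 * k e,
        (s1 (g f) (k f - k e) (l f - l e)).2 + 60 * l e) := by
      have := s1_shift (g f) (k e) (l e) (k f - k e) (l f - l e)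
      rwa [show k e + (k f - k e) = k f by ring, show l e + (l f - l e) = l f by ring] at this
    have a4 : s2 (g f) (k f) (l f) = ((s2 (g f) (k f - k e) (l f - l e)).1 + 60 * k e,
        (s2 (g f) (k f - k e) (l f - l e)).2 + 60 * l e) := by
      have := s2_shift (g f) (k e) (l e) (k f - k e) (l f - l e)
      rwa [show k e + (k f - k e) = k f by ring, show l e + (l f - l e) = l f by ring] at this
    have key : ∀ a b : ℤ × ℤ, (a.1 + 60 * k e, a.2 + 60 * l e) = (b.1 + 60 * k e, b.2 + 60 * l e) →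
        a = b := by
      intro a b h
      simp only [Prod.mk.injEq] at h
      ext
      · omega
      · omega
    rcases m1 with m1 | m1 <;> rcases m2 with m2 | m2
    · apply hq.2.2.1
      apply key
      rw [← a1]
      refine Eq.trans ?_ a3
      rw [← pt_src, ← pt_src, ← m1, ← m2]
    · apply hq.2.2.2.1
      apply key
      rw [← a1]
      refine Eq.trans ?_ a4
      rw [← pt_src, ← pt_tgt, ← m1, ← m2]
    · apply hq.2.2.2.2.1
      apply key
      rw [← a2]
      refine Eq.trans ?_ a3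
      rw [← pt_tgt, ← pt_src, ← m1, ← m2]
    · apply hq.2.2.2.2.2.1
      apply key
      rw [← a2]
      refine Eq.trans ?_ a4
      rw [← pt_tgt, ← pt_tgt, ← m1, ← m2]
  · -- no three edges
    intro e f f' hef hff' hef'
    rw [Set.eq_empty_iff_forall_notMem]
    rintro x ⟨⟨hx1, hx2⟩, hx3⟩
    have hq := chk_q (hg e) (hlist e f hef x hx1 hx2)
    have hq' := chk_q (hg e) (hlist e f' hef' x hx1 hx3)
    obtain ⟨t, -, -, h1, h2⟩ := K5.mem_os (hseg e hx1)
    have p1 := hpar e f x t h1 h2 hx2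
    have p2 := hpar e f' x t h1 h2 hx3
    rcases hq.2.2.2.2.2.2 _ (hlist e f' hef' x hx1 hx3) with h | h
    · exact hff' (hinjF e f f' h)
    · apply h
      have : (num (g e) (F e f) : ℝ) * den (g e) (F e f') = num (g e) (F e f') * den (g e) (F e f) := by
        rw [← p1, ← p2]; ring
      exact_mod_cast this
  · -- the tunnels
    refine ⟨fun e f => (g e, F e f) ∈ tun, ?_, ?_⟩
    · rintro e f hne ⟨x, hx1, hx2⟩
      have hq := chk_q (hg e) (hlist e f hne x hx1 hx2)
      have h1 : (g f, g e, -(F e f).2.1, -(F e f).2.2) = (g f, F f e) := by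
        simp only [F, neg_sub]
      have h2 := hq.2.1
      simp only [F] at h2 h1 ⊢
      rw [h1] at h2
      exact h2
    · intro e
      have hmap : Set.MapsTo (fun f => (g e, F e f))
          {f | f ≠ e ∧ ((draw φ).inner e ∩ (draw φ).inner f).Nonempty ∧ (g e, F e f) ∈ tun}
          (((tun.filter fun t => decide (t.1 = g e)).toFinset : Finset _) : Set _) := by
        rintro f ⟨-, -, h3⟩
        rw [Finset.mem_coe, List.mem_toFinset, List.mem_filter]
        exact ⟨h3, by simp⟩
      have hinj : Set.InjOn (fun f => (g e, F e f))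
          {f | f ≠ e ∧ ((draw φ).inner e ∩ (draw φ).inner f).Nonempty ∧ (g e, F e f) ∈ tun} := by
        intro f _ f' _ h
        simp only [Prod.mk.injEq] at h
        exact hinjF e f f' h.2
      refine (Set.encard_le_encard_of_injOn hmap hinj).trans ?_
      rw [Set.encard_coe_eq_coe_finsetCard]
      exact_mod_cast (List.toFinset_card_le _).trans (check_gap (g e) (hg e))

end

end Pool.Agent.H477R3.Gap
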